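import Mathlib
import Pool.Agent.H6.CLP

namespace Pool.Agent.Results.MP_da15bd_co.Growth

/-- The restricted sumset of `A`. -/
def restrictedSumset {n : ℕ} (A : Finset (Fin n → ZMod 2)) : Set (Fin n → ZMod 2) :=
  {x | ∃ a ∈ A, ∃ b ∈ A, a ≠ b ∧ x = a + b}

/-- Every set with at least `m` elements forces `p 0 = 0`, for all `p` of degree at most `d`
that vanish on the restricted sumset. -/
def Forces (n d m : ℕ) : Prop :=
  ∀ A : Finset (Fin n → ZMod 2), m ≤ A.card →
    ∀ p : MvPolynomial (Fin n) (ZMod 2), p.totalDegree ≤ d →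
      (∀ x ∈ restrictedSumset A, MvPolynomial.eval x p = 0) → MvPolynomial.eval 0 p = 0

/-- The threshold `N(n,d)`. -/
noncomputable def N (n d : ℕ) : ℕ := sInf {m | Forces n d m}

/-- The number of subsets of an `n`-element set with at most `k` elements. -/
def B (n k : ℕ) : ℕ := ∑ i ∈ Finset.range (k + 1), n.choose i

lemma forces_of {n s t d : ℕ} (h : d < s + t) :
    Forces n d (∑ i ∈ Finset.range s, n.choose i + ∑ i ∈ Finset.range t, n.choose i + 1) := by
  intro A hA p hp hv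
  by_contra h0
  have := Pool.Agent.H6.CLP.upper h A p hp
    (fun a ha b hb hab => hv _ ⟨a, ha, b, hb, hab, rfl⟩) h0
  omega

lemma upper_of {n s t d : ℕ} (h : d < s + t) :
    N n d ≤ ∑ i ∈ Finset.range s, n.choose i + ∑ i ∈ Finset.range t, n.choose i + 1 :=
  Nat.sInf_le (forces_of h)

lemma N_mem (n d : ℕ) : Forces n d (N n d) := by
  have h : {m | Forces n d m}.Nonempty :=
    ⟨_, forces_of (n := n) (s := d + 1) (t := 0) (d := d) (by omega)⟩
  exact Nat.sInf_mem h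

lemma lower_of {n d : ℕ} (A : Finset (Fin n → ZMod 2)) (p : MvPolynomial (Fin n) (ZMod 2))
    (hp : p.totalDegree ≤ d) (hv : ∀ a ∈ A, ∀ b ∈ A, a ≠ b → MvPolynomial.eval (a + b) p = 0)
    (h0 : MvPolynomial.eval 0 p = 1) : A.card + 1 ≤ N n d := by
  by_contra h
  have h1 := N_mem n d A (by omega) p hp (by
    rintro x ⟨a, ha, b, hb, hab, rfl⟩
    exact hv a ha b hb hab)
  rw [h0] at h1
  exact one_ne_zero h1

lemma even_lower (n k : ℕ) : B n k + 1 ≤ N n (2 * k) := by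
  have := lower_of (Pool.Agent.H6.CLP.ball n k) (Pool.Agent.H6.CLP.q n k)
    (Pool.Agent.H6.CLP.q_deg n k)
    (fun a ha b hb hab => Pool.Agent.H6.CLP.ball_van ha hb
      (Pool.Agent.H6.CLP.add_ne_zero_of_ne hab)) (Pool.Agent.H6.CLP.q_zero n k)
  rwa [Pool.Agent.H6.CLP.card_ball] at this

lemma odd_lower (n k : ℕ) : 2 * B n k + 1 ≤ N (n + 1) (2 * k + 1) := by
  have := lower_of (Pool.Agent.H6.CLP.cyl n k) (Pool.Agent.H6.CLP.q' n k)
    (Pool.Agent.H6.CLP.q'_deg n k)
    (fun a ha b hb hab => Pool.Agent.H6.CLP.cyl_van ha hb hab) (Pool.Agent.H6.CLP.q'_zero n k)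
  rwa [Pool.Agent.H6.CLP.card_cyl] at this

/-- Two-sided bounds for `N(n,d)`, giving its order of growth for all `0 ≤ d < n`. -/
theorem result :
    (∀ n d : ℕ, d < n → IsLeast {m | Forces n d m} (N n d) ∧
      B n (d / 2) + 1 ≤ N n d ∧ N n d ≤ 2 * B n (d / 2) + 1) ∧
    (∀ n k : ℕ, 2 * k < n →
      B n k + 1 ≤ N n (2 * k) ∧
      N n (2 * k) ≤ B n k + ∑ i ∈ Finset.range k, n.choose i + 1) ∧
    (∀ n k : ℕ, 2 * k + 1 < n →
      2 * B (n - 1) k + 1 ≤ N n (2 * k + 1) ∧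
      N n (2 * k + 1) ≤ 2 * B n k + 1) := by
  have hup : ∀ n d : ℕ, N n d ≤ 2 * B n (d / 2) + 1 := by
    intro n d
    have := upper_of (n := n) (s := d / 2 + 1) (t := d / 2 + 1) (d := d) (by omega)
    unfold B
    omega
  refine ⟨fun n d hd => ⟨⟨N_mem n d, fun m hm => Nat.sInf_le hm⟩, ?_, hup n d⟩,
    fun n k hk => ⟨even_lower n k, upper_of (by omega)⟩, fun n k hk => ⟨?_, ?_⟩⟩
  · rcases Nat.even_or_odd' d with ⟨k, rfl | rfl⟩
    · rw [Nat.mul_div_cancel_left _ (by norm_num)]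
      exact even_lower n k
    · have h1 : (2 * k + 1) / 2 = k := by omega
      rw [h1]
      refine (even_lower n k).trans (Nat.sInf_le ?_)
      intro A hA p hp hv
      exact N_mem n (2 * k + 1) A hA p (by omega) hv
  · obtain ⟨m, rfl⟩ : ∃ m, n = m + 1 := ⟨n - 1, by omega⟩
    exact odd_lower m k
  · have := hup n (2 * k + 1)
    have h1 : (2 * k + 1) / 2 = k := by omega
    rwa [h1] at this

end Pool.Agent.Results.MP_da15bd_co.Growth
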